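import Pool.Agent.Lib.MP_305fdd_al.Su.Cov.Tr
import Pool.Agent.Lib.MP_305fdd_al.F8.Tower

/-!
# MP_305fdd_al, surface groups, covers: kernels of homomorphisms to groups of prime order

`cov_iso`: the kernel of a nontrivial homomorphism `SurfaceGroup g → ℤ/p`, `p` prime, is the surface
group of genus `p (g - 1) + 1`.
-/

set_option autoImplicit false

namespace Pool.Agent.SuCov

open Pool.Agent.Su Pool.Agent.Lib.MP_305fdd_al

variable {p : ℕ}

theorem eqv_m2k {g : ℕ} (v : Fin g → ZMod p × ZMod p) (i : Fin g) (k : ℕ) :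
    Eqv v (Function.update v i ((v i).1, (v i).2 + k * (v i).1)) := by
  induction k with
  | zero =>
    have : Function.update v i ((v i).1, (v i).2 + ((0 : ℕ) : ZMod p) * (v i).1) = v := by
      rw [Nat.cast_zero, zero_mul, add_zero]
      exact Function.update_eq_self i v
    rw [this]
    exact Eqv.refl v
  | succ k ih =>
    refine ih.trans ?_
    have h := eqv_m2 (Function.update v i ((v i).1, (v i).2 + k * (v i).1)) i
    rw [Function.update_idem, Function.update_self] at h
    have e : ((v i).1, (v i).2 + ((k + 1 : ℕ) : ZMod p) * (v i).1) =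
        ((v i).1, (v i).2 + k * (v i).1 + (v i).1) := by
      rw [Nat.cast_succ]
      congr 1
      ring
    rw [e]
    exact h

theorem exists_mul [Fact p.Prime] (x y c : ZMod p) (hx : x ≠ 0) : ∃ k : ℕ, y + k * x = c := by
  refine ⟨((c - y) * x⁻¹).val, ?_⟩
  rw [ZMod.natCast_zmod_val, mul_assoc, inv_mul_cancel₀ hx, mul_one, add_sub_cancel]

/-- the second coordinate of a nonzero vector can be changed to a given number -/
theorem eqv_snd [Fact p.Prime] {g : ℕ} (v : Fin g → ZMod p × ZMod p) (i : Fin g) (hi : v i ≠ 0)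
    (c : ZMod p) : ∃ x : ZMod p, x ≠ 0 ∧ Eqv v (Function.update v i (x, c)) := by
  have key : ∀ v : Fin g → ZMod p × ZMod p, (v i).1 ≠ 0 →
      ∃ x : ZMod p, x ≠ 0 ∧ Eqv v (Function.update v i (x, c)) := by
    intro v hv
    obtain ⟨k, hk⟩ := exists_mul (v i).1 (v i).2 c hv
    have h := eqv_m2k v i k
    rw [hk] at h
    exact ⟨_, hv, h⟩
  by_cases h1 : (v i).1 = 0
  · have h2 : (v i).2 ≠ 0 := fun h => hi (Prod.ext h1 h)
    have h3 := eqv_m1 v i
    rw [h1, zero_add] at h3
    obtain ⟨x, hx, h4⟩ := key (Function.update v i ((v i).2, (v i).2)) (by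
      rw [Function.update_self]
      exact h2)
    rw [Function.update_idem] at h4
    exact ⟨x, hx, h3.trans h4⟩
  · exact key v h1

/-- the vectors at the handles `0`, `1` can be changed such that the first is zero -/
theorem eqv_pair [Fact p.Prime] {n : ℕ} (v : Fin (n + 2) → ZMod p × ZMod p) :
    ∃ w, Eqv v w ∧ w 0 = 0 ∧ ∀ i : Fin n, w i.succ.succ = v i.succ.succ := by
  have h01 : (1 : Fin (n + 2)) ≠ 0 := by
    intro h
    have := congrArg Fin.val h
    simp at this
  have hs0 : ∀ i : Fin n, i.succ.succ ≠ (0 : Fin (n + 2)) := fun i => Fin.succ_ne_zero _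
  have hs1 : ∀ i : Fin n, i.succ.succ ≠ (1 : Fin (n + 2)) := fun i h =>
    Fin.succ_ne_zero i (Fin.succ_injective _ h)
  -- both nonzero
  have key : ∀ v : Fin (n + 2) → ZMod p × ZMod p, v 0 ≠ 0 → v 1 ≠ 0 →
      ∃ w, Eqv v w ∧ w 0 = 0 ∧ ∀ i : Fin n, w i.succ.succ = v i.succ.succ := by
    intro v h0 h1
    obtain ⟨x, hx, e1⟩ := eqv_snd v 0 h0 0
    obtain ⟨y, hy, e2⟩ := eqv_snd (Function.update v 0 (x, 0)) 1
      (by rw [Function.update_of_ne h01]; exact h1) x
    have e3 := eqv_m3 (Function.update (Function.update v 0 (x, 0)) 1 (y, x))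
    refine ⟨_, (e1.trans e2).trans e3, ?_, ?_⟩
    · rw [Fin.cons_zero, Function.update_self, Function.update_of_ne h01.symm, Function.update_self]
      simp
    · intro i
      rw [Fin.cons_succ, Fin.cons_succ, Function.update_of_ne (hs1 i), Function.update_of_ne (hs0 i)]
  by_cases h0 : v 0 = 0
  · exact ⟨v, Eqv.refl v, h0, fun _ => rfl⟩
  by_cases h1 : v 1 = 0
  · obtain ⟨x, hx, e1⟩ := eqv_snd v 0 h0 1
    have e2 := eqv_m3 (Function.update v 0 (x, 1))
    rw [Function.update_self, Function.update_of_ne h01, h1] at e2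
    obtain ⟨z, hz⟩ : ∃ z : Fin (n + 2) → ZMod p × ZMod p, z =
      (Fin.cons ((x, (1 : ZMod p)).1 - ((0 : ZMod p × ZMod p).2 - (x, (1 : ZMod p)).2),
        (x, (1 : ZMod p)).2) (Fin.cons ((0 : ZMod p × ZMod p).1 + ((0 : ZMod p × ZMod p).2 -
          (x, (1 : ZMod p)).2), (0 : ZMod p × ZMod p).2)
            fun i => Function.update v 0 (x, (1 : ZMod p)) i.succ.succ)) := ⟨_, rfl⟩
    rw [← hz] at e2
    obtain ⟨w, e3, h3, h4⟩ := key z (by
        rw [hz, Fin.cons_zero]
        intro h
        have := congrArg Prod.snd h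
        exact one_ne_zero this) (by
        have h5 : z 1 = ((0 : ZMod p × ZMod p).1 + ((0 : ZMod p × ZMod p).2 -
          (x, (1 : ZMod p)).2), (0 : ZMod p × ZMod p).2) := by rw [hz]; rfl
        rw [h5]
        intro h
        have := congrArg Prod.fst h
        simp at this)
    refine ⟨w, (e1.trans e2).trans e3, h3, fun i => ?_⟩
    rw [h4, hz, Fin.cons_succ, Fin.cons_succ, Function.update_of_ne (hs0 i)]
  · exact key v h0 h1

/-- all vectors but the first can be made zero -/
theorem eqv_first [Fact p.Prime] {n : ℕ} (v : Fin (n + 1) → ZMod p × ZMod p) (k : ℕ) (hk : k ≤ n) :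
    ∃ w, Eqv v w ∧ ∀ j : Fin (n + 1), n + 1 - k ≤ j → w j = 0 := by
  induction k with
  | zero => exact ⟨v, Eqv.refl v, fun j hj => by have := j.2; omega⟩
  | succ k ih =>
    obtain ⟨w, h1, h2⟩ := ih (by omega)
    obtain ⟨n, rfl⟩ : ∃ n', n = n' + 1 := ⟨n - 1, by omega⟩
    obtain ⟨w', h3, h4, h5⟩ := eqv_pair w
    refine ⟨_, (h1.trans h3).trans (eqv_rot w'), ?_⟩
    intro j hj
    refine Fin.lastCases (motive := fun j => n + 1 + 1 - (k + 1) ≤ (j : ℕ) → w' (j + 1) = 0)
      ?_ (fun j => ?_) j hj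
    · intro _
      rw [Fin.last_add_one]
      exact h4
    · intro hj
      rw [Fin.coeSucc_eq_succ]
      rw [Fin.val_castSucc] at hj
      obtain ⟨i, rfl⟩ : ∃ i : Fin n, j = i.succ := by
        refine ⟨⟨j - 1, by have := j.2; omega⟩, Fin.ext ?_⟩
        rw [Fin.val_succ]
        change (j : ℕ) = j - 1 + 1
        omega
      rw [h5]
      apply h2
      simp only [Fin.val_succ] at hj ⊢
      omega

/-- a nontrivial character is equivalent to one which is supported on the last `a` -/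
theorem eqv_last [Fact p.Prime] {n : ℕ} (v : Fin (n + 1) → ZMod p × ZMod p) (hv : v ≠ 0) :
    ∃ x : ZMod p, x ≠ 0 ∧ Eqv v (Fin.lastCases (x, 0) (fun _ => 0)) := by
  obtain ⟨w, h1, h2⟩ := eqv_first v n le_rfl
  have h3 : Eqv v fun i => w (i + 1) := h1.trans (eqv_rot w)
  have hw0 : w 0 ≠ 0 := by
    intro h0
    have hw : w = 0 := by
      funext j
      by_cases hj : j = 0
      · rw [hj, h0]
        rfl
      · refine h2 j ?_
        have : (j : ℕ) ≠ 0 := fun h => hj (Fin.ext h)
        omega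
    rw [hw] at h1
    obtain ⟨e, he⟩ := h1
    apply hv
    have h4 : ch v = 1 := by
      have h5 : (ch (0 : Fin (n + 1) → ZMod p × ZMod p)) = 1 := by
        refine surf_ext (fun i => ?_) (fun i => ?_)
        · rw [ch_sa]
          rfl
        · rw [ch_sb]
          rfl
      rw [h5] at he
      ext x
      have h6 := DFunLike.congr_fun he (e.symm x)
      simpa using h6
    funext i
    refine Prod.ext ?_ ?_
    · have h5 := ch_sa v i
      rw [h4] at h5
      exact h5.symm
    · have h5 := ch_sb v i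
      rw [h4] at h5
      exact h5.symm
  obtain ⟨x, hx, h4⟩ := eqv_snd (fun i => w (i + 1)) (Fin.last n) (by
    rw [Fin.last_add_one]
    exact hw0) 0
  refine ⟨x, hx, ?_⟩
  have h5 : Function.update (fun i => w (i + 1)) (Fin.last n) (x, 0) =
      (Fin.lastCases (x, 0) (fun _ => 0) : Fin (n + 1) → ZMod p × ZMod p) := by
    funext j
    refine Fin.lastCases ?_ (fun j => ?_) j
    · rw [Function.update_self, Fin.lastCases_last]
    · rw [Function.update_of_ne (Fin.castSucc_lt_last j).ne, Fin.lastCases_castSucc,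
        Fin.coeSucc_eq_succ]
      apply h2
      simp only [Fin.val_succ]
      omega
  rw [← h5]
  exact h3.trans h4

/-- kernels of equivalent homomorphisms -/
def kerEquiv {G H Z : Type} [Group G] [Group H] [Group Z] (e : H ≃* G) (φ : G →* Z) :
    (φ.comp e.toMonoidHom).ker ≃* φ.ker where
  toFun x := ⟨e x, x.2⟩
  invFun x := ⟨e.symm x, by
    rw [MonoidHom.mem_ker, MonoidHom.comp_apply]
    change φ (e (e.symm x)) = 1
    rw [MulEquiv.apply_symm_apply]
    exact x.2⟩
  left_inv x := by simp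
  right_inv x := by simp
  map_mul' x y := by
    apply Subtype.ext
    exact map_mul e x.1 y.1

/-- **the kernel of a nontrivial homomorphism of a surface group to `ℤ/p` is a surface group** -/
theorem cov_iso [Fact p.Prime] {n : ℕ} (φ : SurfaceGroup (n + 1) →* Multiplicative (ZMod p))
    (hφ : φ ≠ 1) : Nonempty (φ.ker ≃* SurfaceGroup (p * n + 1)) := by
  let v : Fin (n + 1) → ZMod p × ZMod p := fun i =>
    (Multiplicative.toAdd (φ (sa _ i)), Multiplicative.toAdd (φ (sb _ i)))
  have hv : φ = ch v := by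
    refine surf_ext (fun i => ?_) (fun i => ?_)
    · rw [ch_sa]
      rfl
    · rw [ch_sb]
      rfl
  have hv0 : v ≠ 0 := by
    intro h0
    apply hφ
    rw [hv, h0]
    refine surf_ext (fun i => ?_) (fun i => ?_)
    · rw [ch_sa]
      rfl
    · rw [ch_sb]
      rfl
  obtain ⟨x, hx, e, he⟩ := eqv_last v hv0
  have h1 : ch (Fin.lastCases (x, 0) (fun _ => 0) : Fin (n + 1) → ZMod p × ZMod p) =
      chr n (Multiplicative.ofAdd x) := by
    refine surf_ext (fun i => ?_) (fun i => ?_)
    · refine Fin.lastCases ?_ (fun i => ?_) i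
      · rw [ch_sa, Fin.lastCases_last]
        exact (chr_la n _).symm
      · rw [ch_sa, Fin.lastCases_castSucc, chr_sa]
        rfl
    · rw [ch_sb, chr_sb]
      refine Fin.lastCases ?_ (fun i => ?_) i
      · rw [Fin.lastCases_last]
        rfl
      · rw [Fin.lastCases_castSucc]
        rfl
  have hp : p ≠ 0 := (Fact.out : p.Prime).ne_zero
  have h2 : orderOf (Multiplicative.ofAdd x) = p - 1 + 1 := by
    rw [Nat.sub_add_cancel (Nat.one_le_iff_ne_zero.2 hp)]
    refine orderOf_eq_prime ?_ ?_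
    · rw [← ofAdd_nsmul, nsmul_eq_mul, CharP.cast_eq_zero, zero_mul]
      rfl
    · intro h
      exact hx (Multiplicative.ofAdd.injective h)
  have h3 := range_cov n (p - 1) _ h2
  have e1 : (φ.comp e.toMonoidHom).ker ≃* φ.ker := kerEquiv e φ
  have h4 : (φ.comp e.toMonoidHom).ker = (cov n (p - 1)).range := by
    rw [h3, ← h1, ← he, hv]
  have e2 : SS n (p - 1) ≃* (cov n (p - 1)).range := MonoidHom.ofInjective (cov_injective n (p - 1))
  have h5 : SS n (p - 1) = SurfaceGroup (p * n + 1) := by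
    rw [SS, Nat.sub_add_cancel (Nat.one_le_iff_ne_zero.2 hp)]
  have h6 : (p - 1 + 1) * n + 1 = p * n + 1 := by
    rw [Nat.sub_add_cancel (Nat.one_le_iff_ne_zero.2 hp)]
  have e3 : Nonempty (SS n (p - 1) ≃* SurfaceGroup (p * n + 1)) := by
    change Nonempty (SurfaceGroup ((p - 1 + 1) * n + 1) ≃* SurfaceGroup (p * n + 1))
    rw [h6]
    exact ⟨MulEquiv.refl _⟩
  obtain ⟨e3⟩ := e3
  exact ⟨e1.symm.trans ((MulEquiv.subgroupCongr h4).trans (e2.symm.trans e3))⟩

/-- the same with `g` -/
theorem cov_iso' [Fact p.Prime] {g : ℕ} (hg : 1 ≤ g)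
    (φ : SurfaceGroup g →* Multiplicative (ZMod p)) (hφ : φ ≠ 1) :
    Nonempty (φ.ker ≃* SurfaceGroup (p * (g - 1) + 1)) := by
  obtain ⟨n, rfl⟩ : ∃ n, g = n + 1 := ⟨g - 1, by omega⟩
  exact cov_iso φ hφ

/-- THE COVER PACKAGE for a group with the same finite quotients as a surface group -/
theorem cov_natBij [Fact p.Prime] {g : ℕ} (hg : 1 ≤ g) {Λ : Type} [Group Λ]
    (Φ : NatBij Λ (SurfaceGroup g)) (φ : Λ →* Multiplicative (ZMod p)) (hφ : φ ≠ 1) :
    Nonempty (NatBij φ.ker (SurfaceGroup (p * (g - 1) + 1))) := by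
  have : NeZero p := ⟨(Fact.out : p.Prime).ne_zero⟩
  have : Finite (Multiplicative (ZMod p)) := inferInstanceAs (Finite (ZMod p))
  obtain ⟨Ψ, _⟩ := Pool.Agent.F8.natBij_ker (π := φ) (π' := Φ.toFun _ φ) Φ rfl
  have h1 : Φ.toFun _ φ ≠ 1 := by
    intro h
    apply hφ
    have h2 := congrArg (Φ.invFun (Multiplicative (ZMod p))) h
    rw [Φ.left_inv] at h2
    rw [h2]
    exact Φ.symm.one _
  obtain ⟨e⟩ := cov_iso' hg (Φ.toFun _ φ) h1
  exact ⟨(Pool.Agent.F8.natBij_equiv e.symm Ψ.symm).symm⟩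

end Pool.Agent.SuCov
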