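import Pool.Agent.Lib.MP_305fdd_al.Su.Emb

/-!
# MP_305fdd_al, surface groups, covers: the cyclic cover of degree `m + 1`

The kernel of the homomorphism `SurfaceGroup (n + 1) → ℤ/(m + 1)` which maps the last `a` to `1` and the
other generators to `0` is the surface group of genus `(m + 1) n + 1`.
-/

set_option autoImplicit false

namespace Pool.Agent.SuCov

open Pool.Agent.Su

variable (n m : ℕ)

/-- the base group -/
abbrev GG (n : ℕ) : Type := SurfaceGroup (n + 1)

/-- the covering group -/
abbrev SS (n m : ℕ) : Type := SurfaceGroup ((m + 1) * n + 1)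

/-- the index of the copy `j` of the handle `i` -/
def kap {n m : ℕ} (j : Fin (m + 1)) (i : Fin n) : Fin ((m + 1) * n) :=
  ⟨j * n + i, calc
    (j : ℕ) * n + i < j * n + n := by have := i.2; omega
    _ = (j + 1) * n := by ring
    _ ≤ (m + 1) * n := Nat.mul_le_mul_right _ j.2⟩

theorem div_kap (j : Fin (m + 1)) (i : Fin n) : (kap j i).divNat = j := by
  apply Fin.ext
  have hn : 0 < n := i.pos
  rw [Fin.coe_divNat, kap]
  change ((j : ℕ) * n + i) / n = j
  rw [Nat.add_comm, Nat.add_mul_div_right _ _ hn, Nat.div_eq_of_lt i.2, Nat.zero_add]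

theorem mod_kap (j : Fin (m + 1)) (i : Fin n) : (kap j i).modNat = i := by
  apply Fin.ext
  rw [Fin.coe_modNat, kap]
  change ((j : ℕ) * n + i) % n = i
  rw [Nat.add_comm, Nat.add_mul_mod_self_right, Nat.mod_eq_of_lt i.2]

/-- products over all handles -/
theorem prod_kap {Q : Type} [Group Q] (f : Fin ((m + 1) * n) → Q) :
    (List.ofFn f).prod = (List.ofFn fun j : Fin (m + 1) => (List.ofFn fun i => f (kap j i)).prod).prod := by
  rw [List.ofFn_mul, List.prod_flatten, List.map_ofFn]
  rfl

/-! ### the action -/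

/-- the product of the commutators of the copy `j` -/
def Sj (j : Fin (m + 1)) : SS n m :=
  (List.ofFn fun i : Fin n => sa ((m + 1) * n + 1) (kap j i).castSucc * sb _ (kap j i).castSucc *
    (sa _ (kap j i).castSucc)⁻¹ * (sb _ (kap j i).castSucc)⁻¹).prod

/-- the element `t` -/
def tt : SS n m := sa _ (Fin.last _)

/-- the element `b` -/
def bb : SS n m := sb _ (Fin.last _)

theorem rel_SS : (List.ofFn (Sj n m)).prod * (tt n m * bb n m * (tt n m)⁻¹ * (bb n m)⁻¹) = 1 := by
  have h1 := surf_rel ((m + 1) * n + 1)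
  rw [List.ofFn_succ', List.concat_eq_append, List.prod_append, List.prod_singleton, prod_kap] at h1
  exact h1

/-- partial products -/
def pp (j : ℕ) : SS n m := ((List.ofFn (Sj n m)).take j).prod

theorem pp_zero : pp n m 0 = 1 := rfl

theorem pp_succ (j : Fin (m + 1)) : pp n m (j + 1) = pp n m j * Sj n m j := by
  have hl : (j : ℕ) < (List.ofFn (Sj n m)).length := by
    rw [List.length_ofFn]
    exact j.2
  rw [pp, pp, List.take_succ_eq_append_getElem hl, List.prod_append, List.prod_singleton,
    List.getElem_ofFn]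

theorem pp_last : pp n m (m + 1) * (tt n m * bb n m * (tt n m)⁻¹ * (bb n m)⁻¹) = 1 := by
  rw [pp, List.take_of_length_le (by simp)]
  exact rel_SS n m

/-- the values of `b` in the fibres -/
def Bv (j : Fin (m + 1)) : SS n m := (pp n m j)⁻¹ * bb n m

/-- the permutations of the generators `a` -/
def qa (i : Fin (n + 1)) : Equiv.Perm (Fin (m + 1) × SS n m) :=
  Fin.lastCases (pa m (tt n m)) (fun i : Fin n => fib m (fun j => sa _ (kap j i).castSucc)) i

/-- the permutations of the generators `b` -/
def qb (i : Fin (n + 1)) : Equiv.Perm (Fin (m + 1) × SS n m) :=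
  Fin.lastCases (fib m (Bv n m)) (fun i : Fin n => fib m (fun j => sb _ (kap j i).castSucc)) i

theorem prod_fib {H : Type} [Group H] (f : Fin n → Fin (m + 1) → H) :
    (List.ofFn fun i => fib m (f i)).prod = fib m fun j => (List.ofFn fun i => f i j).prod := by
  have h1 : (List.ofFn fun i => fib m (f i)) = (List.ofFn f).map (fib m) := by
    rw [List.map_ofFn]
    rfl
  rw [h1, ← map_list_prod]
  congr 1
  funext j
  have h2 := map_list_prod (Pi.evalMonoidHom (fun _ : Fin (m + 1) => H) j) (List.ofFn f)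
  rw [List.map_ofFn] at h2
  exact h2

theorem q_rel : (List.ofFn fun i : Fin (n + 1) => qa n m i * qb n m i * (qa n m i)⁻¹ *
    (qb n m i)⁻¹).prod = 1 := by
  rw [List.ofFn_succ', List.concat_eq_append, List.prod_append, List.prod_singleton]
  have e1 : (List.ofFn fun i : Fin n => qa n m i.castSucc * qb n m i.castSucc *
      (qa n m i.castSucc)⁻¹ * (qb n m i.castSucc)⁻¹).prod = fib m (Sj n m) := by
    have e2 : (fun i : Fin n => qa n m i.castSucc * qb n m i.castSucc *
      (qa n m i.castSucc)⁻¹ * (qb n m i.castSucc)⁻¹) = fun i : Fin n => fib m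
        (fun j => sa ((m + 1) * n + 1) (kap j i).castSucc * sb _ (kap j i).castSucc *
          (sa _ (kap j i).castSucc)⁻¹ * (sb _ (kap j i).castSucc)⁻¹) := by
      funext i
      rw [qa, qb, Fin.lastCases_castSucc, Fin.lastCases_castSucc, ← map_inv, ← map_inv, ← map_mul,
        ← map_mul, ← map_mul]
      rfl
    rw [e2, prod_fib]
    rfl
  have e3 : qa n m (Fin.last n) = pa m (tt n m) := by rw [qa, Fin.lastCases_last]
  have e4 : qb n m (Fin.last n) = fib m (Bv n m) := by rw [qb, Fin.lastCases_last]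
  rw [e1, e3, e4, pa_conj, ← map_inv, ← map_mul, ← map_mul, ← map_one (fib m)]
  congr 1
  funext j
  simp only [Pi.mul_apply, Pi.inv_apply, Pi.one_apply]
  refine Fin.lastCases ?_ (fun j => ?_) j
  · rw [Fin.lastCases_last]
    have h1 := pp_last n m
    have h2 := pp_succ n m (Fin.last m)
    simp only [Fin.val_last] at h2
    rw [h2] at h1
    have e0 : Bv n m 0 = bb n m := by
      rw [Bv]
      change (pp n m 0)⁻¹ * _ = _
      rw [pp_zero, inv_one, one_mul]
    have e5 : Bv n m (Fin.last m) = (pp n m m)⁻¹ * bb n m := rfl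
    rw [e0, e5]
    have h3 : Sj n m (Fin.last m) * (tt n m * bb n m * (tt n m)⁻¹ * ((pp n m m)⁻¹ * bb n m)⁻¹) =
        (pp n m m)⁻¹ * (pp n m m * Sj n m (Fin.last m) *
          (tt n m * bb n m * (tt n m)⁻¹ * (bb n m)⁻¹)) * pp n m m := by
      group
    rw [h3, h1]
    group
  · rw [Fin.lastCases_castSucc]
    have h2 := pp_succ n m j.castSucc
    have e1 : Bv n m j.succ = (pp n m j.castSucc * Sj n m j.castSucc)⁻¹ * bb n m := by
      rw [Bv, ← h2]
      rfl
    have e2 : Bv n m j.castSucc = (pp n m j.castSucc)⁻¹ * bb n m := rfl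
    rw [e1, e2]
    group

/-- the action of the base group -/
def act : GG n →* Equiv.Perm (Fin (m + 1) × SS n m) := surfLift (qa n m) (qb n m) (q_rel n m)

theorem act_a : act n m (sa _ (Fin.last n)) = pa m (tt n m) := by
  rw [act, surfLift_sa, qa, Fin.lastCases_last]

theorem act_b : act n m (sb _ (Fin.last n)) = fib m (Bv n m) := by
  rw [act, surfLift_sb, qb, Fin.lastCases_last]

theorem act_sa (i : Fin n) : act n m (sa _ i.castSucc) = fib m (fun j => sa _ (kap j i).castSucc) := by
  rw [act, surfLift_sa, qa, Fin.lastCases_castSucc]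

theorem act_sb (i : Fin n) : act n m (sb _ i.castSucc) = fib m (fun j => sb _ (kap j i).castSucc) := by
  rw [act, surfLift_sb, qb, Fin.lastCases_castSucc]

/-! ### the map of the covering group -/

/-- the last `a` -/
def la : GG n := sa _ (Fin.last n)

/-- images of the generators `a_k` -/
def ea (k : Fin ((m + 1) * n + 1)) : GG n :=
  Fin.lastCases (la n ^ (m + 1))
    (fun k : Fin ((m + 1) * n) => la n ^ (k.divNat : ℕ) * sa _ k.modNat.castSucc *
      (la n ^ (k.divNat : ℕ))⁻¹) k

/-- images of the generators `b_k` -/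
def eb (k : Fin ((m + 1) * n + 1)) : GG n :=
  Fin.lastCases (sb _ (Fin.last n))
    (fun k : Fin ((m + 1) * n) => la n ^ (k.divNat : ℕ) * sb _ k.modNat.castSucc *
      (la n ^ (k.divNat : ℕ))⁻¹) k

/-- the product of the commutators of the other handles -/
def S0 : GG n := (List.ofFn fun i : Fin n => sa (n + 1) i.castSucc * sb _ i.castSucc *
    (sa _ i.castSucc)⁻¹ * (sb _ i.castSucc)⁻¹).prod

theorem S0_eq : S0 n = sb _ (Fin.last n) * la n * (sb _ (Fin.last n))⁻¹ * (la n)⁻¹ := by
  have h1 := surf_rel (n + 1)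
  rw [List.ofFn_succ', List.concat_eq_append, List.prod_append, List.prod_singleton,
    mul_eq_one_iff_eq_inv] at h1
  change S0 n = _ at h1
  rw [h1]
  change (la n * sb _ (Fin.last n) * (la n)⁻¹ * (sb _ (Fin.last n))⁻¹)⁻¹ = _
  group

theorem conj_prod {Q : Type} [Group Q] (g : Q) (l : List Q) :
    (l.map fun x => g * x * g⁻¹).prod = g * l.prod * g⁻¹ := by
  have := map_list_prod (MulAut.conj g) l
  rw [MulAut.conj_apply] at this
  rw [this]
  rfl

theorem e_kap (j : Fin (m + 1)) : (List.ofFn fun i : Fin n => ea n m (kap j i).castSucc *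
    eb n m (kap j i).castSucc * (ea n m (kap j i).castSucc)⁻¹ *
      (eb n m (kap j i).castSucc)⁻¹).prod = la n ^ (j : ℕ) * S0 n * (la n ^ (j : ℕ))⁻¹ := by
  rw [S0, ← conj_prod, List.map_ofFn]
  congr 2
  funext i
  rw [ea, eb, Fin.lastCases_castSucc, Fin.lastCases_castSucc, div_kap, mod_kap]
  simp only [Function.comp_apply]
  group

theorem e_rel : (List.ofFn fun i : Fin ((m + 1) * n + 1) => ea n m i * eb n m i * (ea n m i)⁻¹ *
    (eb n m i)⁻¹).prod = 1 := by
  rw [List.ofFn_succ', List.concat_eq_append, List.prod_append, List.prod_singleton, prod_kap]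
  have e1 : (fun j : Fin (m + 1) => (List.ofFn fun i : Fin n => ea n m (kap j i).castSucc *
    eb n m (kap j i).castSucc * (ea n m (kap j i).castSucc)⁻¹ *
      (eb n m (kap j i).castSucc)⁻¹).prod) = fun j : Fin (m + 1) => la n ^ (j : ℕ) *
        (sb _ (Fin.last n) * la n * (sb _ (Fin.last n))⁻¹ * (la n)⁻¹) * (la n ^ (j : ℕ))⁻¹ := by
    funext j
    rw [e_kap, S0_eq]
  rw [e1, tel, ea, eb, Fin.lastCases_last, Fin.lastCases_last, conj_pow]
  group

/-- the map -/
def cov : SS n m →* GG n := surfLift (ea n m) (eb n m) (e_rel n m)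

theorem cov_tt : cov n m (tt n m) = la n ^ (m + 1) := by
  rw [cov, tt, surfLift_sa, ea, Fin.lastCases_last]

theorem cov_bb : cov n m (bb n m) = sb _ (Fin.last n) := by
  rw [cov, bb, surfLift_sb, eb, Fin.lastCases_last]

theorem cov_sa (k : Fin ((m + 1) * n)) : cov n m (sa _ k.castSucc) =
    la n ^ (k.divNat : ℕ) * sa _ k.modNat.castSucc * (la n ^ (k.divNat : ℕ))⁻¹ := by
  rw [cov, surfLift_sa, ea, Fin.lastCases_castSucc]

theorem cov_sb (k : Fin ((m + 1) * n)) : cov n m (sb _ k.castSucc) =
    la n ^ (k.divNat : ℕ) * sb _ k.modNat.castSucc * (la n ^ (k.divNat : ℕ))⁻¹ := by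
  rw [cov, surfLift_sb, eb, Fin.lastCases_castSucc]

theorem cov_Sj (j : Fin (m + 1)) : cov n m (Sj n m j) =
    la n ^ (j : ℕ) * S0 n * (la n ^ (j : ℕ))⁻¹ := by
  have h1 := Su.map_rel (cov n m) (fun i : Fin n => sa ((m + 1) * n + 1) (kap j i).castSucc)
    (fun i : Fin n => sb ((m + 1) * n + 1) (kap j i).castSucc)
  rw [Sj, h1, ← e_kap]
  congr 2
  funext i
  rw [cov, surfLift_sa, surfLift_sb]

theorem pa_pow' (A x : SS n m) (j : ℕ) (hj : j < m + 1) :
    ((pa m A) ^ j)⁻¹ (0, x) = (⟨j, hj⟩, x) := by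
  induction j with
  | zero => rfl
  | succ j ih =>
    rw [pow_succ, mul_inv_rev, Equiv.Perm.mul_apply, ih (by omega)]
    exact pa_inv_castSucc A x ⟨j, by omega⟩

theorem kap_dm (k : Fin ((m + 1) * n)) : kap k.divNat k.modNat = k := by
  apply Fin.ext
  change (k.divNat : ℕ) * n + k.modNat = k
  rw [Fin.coe_divNat, Fin.coe_modNat, Nat.mul_comm]
  exact Nat.div_add_mod _ _

theorem act_cov (w : SS n m) : ∀ x, act n m (cov n m w) (0, x) = (0, w * x) := by
  induction w using surf_induction with
  | h1 => intro x; simp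
  | ha i =>
    intro x
    refine Fin.lastCases ?_ (fun k => ?_) i
    · have h0 : cov n m (sa _ (Fin.last _)) = la n ^ (m + 1) := cov_tt n m
      rw [h0, map_pow, la, act_a, pow_succ, Equiv.Perm.mul_apply, pa_zero]
      have h1 := pa_pow' n m (tt n m) (tt n m * x) m (by omega)
      rw [Equiv.Perm.inv_eq_iff_eq] at h1
      exact h1.symm
    · rw [cov_sa, map_mul, map_mul, map_inv, map_pow, la, act_a, act_sa, Equiv.Perm.mul_apply,
        Equiv.Perm.mul_apply, pa_pow' n m _ _ _ k.divNat.2, fib_apply]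
      have h1 := pa_pow' n m (tt n m) (sa _ k.castSucc * x) k.divNat k.divNat.2
      rw [Equiv.Perm.inv_eq_iff_eq] at h1
      have h2 : (sa ((m + 1) * n + 1) (kap (k.divNat) k.modNat).castSucc) = sa _ k.castSucc := by
        rw [kap_dm]
      rw [h1]
      exact congrArg (fun y => ((pa m (tt n m)) ^ (k.divNat : ℕ)) (k.divNat, y * x)) h2
  | hb i =>
    intro x
    refine Fin.lastCases ?_ (fun k => ?_) i
    · have h0 : cov n m (sb _ (Fin.last _)) = sb _ (Fin.last n) := cov_bb n m
      rw [h0, act_b, fib_apply]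
      change ((0 : Fin (m + 1)), Bv n m 0 * x) = _
      have e0 : Bv n m 0 = sb _ (Fin.last _) := by
        rw [Bv]
        change (pp n m 0)⁻¹ * _ = _
        rw [pp_zero, inv_one, one_mul]
        rfl
      rw [e0]
    · rw [cov_sb, map_mul, map_mul, map_inv, map_pow, la, act_a, act_sb, Equiv.Perm.mul_apply,
        Equiv.Perm.mul_apply, pa_pow' n m _ _ _ k.divNat.2, fib_apply]
      have h1 := pa_pow' n m (tt n m) (sb _ k.castSucc * x) k.divNat k.divNat.2
      rw [Equiv.Perm.inv_eq_iff_eq] at h1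
      have h2 : (sb ((m + 1) * n + 1) (kap (k.divNat) k.modNat).castSucc) = sb _ k.castSucc := by
        rw [kap_dm]
      rw [h1]
      exact congrArg (fun y => ((pa m (tt n m)) ^ (k.divNat : ℕ)) (k.divNat, y * x)) h2
  | hm v w hv hw =>
    intro x
    rw [map_mul, map_mul, Equiv.Perm.mul_apply, hw, hv, mul_assoc]
  | hi v hv =>
    intro x
    rw [map_inv, map_inv, Equiv.Perm.inv_eq_iff_eq, hv]
    simp

theorem cov_injective : Function.Injective (cov n m) := by
  rw [injective_iff_map_eq_one]
  intro w hw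
  have h1 := act_cov n m w 1
  rw [hw, map_one] at h1
  have h2 := congrArg Prod.snd h1
  simpa using h2.symm

/-! ### the image -/

/-- the equivariant section -/
def Psi (p : Fin (m + 1) × SS n m) : GG n := (la n ^ (p.1 : ℕ))⁻¹ * cov n m p.2

theorem cov_pp (j : ℕ) (hj : j ≤ m + 1) : cov n m (pp n m j) * la n ^ j =
    (sb _ (Fin.last n) * la n * (sb _ (Fin.last n))⁻¹) ^ j := by
  induction j with
  | zero => simp [pp_zero]
  | succ j ih =>
    have h1 := pp_succ n m ⟨j, by omega⟩
    simp only at h1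
    rw [h1, map_mul, cov_Sj, S0_eq, pow_succ (sb _ (Fin.last n) * la n * _), ← ih (by omega), pow_succ]
    group

theorem Psi_act (w : GG n) : ∀ p, Psi n m (act n m w p) = w * Psi n m p := by
  induction w using surf_induction with
  | h1 => intro p; simp
  | ha i =>
    rintro ⟨j, x⟩
    refine Fin.lastCases ?_ (fun i => ?_) i
    · rw [act_a]
      refine Fin.cases ?_ (fun j => ?_) j
      · rw [pa_zero, Psi, Psi, Fin.val_last, map_mul, cov_tt]
        change _ = la n * _
        simp only [Fin.val_zero, pow_zero, inv_one, one_mul, pow_succ]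
        group
      · rw [pa_succ, Psi, Psi, Fin.val_succ, Fin.val_castSucc]
        change _ = la n * _
        rw [pow_succ]
        group
    · rw [act_sa, fib_apply, Psi, Psi, map_mul, cov_sa, div_kap, mod_kap]
      group
  | hb i =>
    rintro ⟨j, x⟩
    refine Fin.lastCases ?_ (fun i => ?_) i
    · rw [act_b, fib_apply, Psi, Psi, map_mul]
      have h1 := cov_pp n m j (by omega)
      have h2 : cov n m (Bv n m j) = la n ^ (j : ℕ) * sb _ (Fin.last n) * (la n ^ (j : ℕ))⁻¹ := by
        rw [Bv, map_mul, cov_bb, map_inv]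
        rw [conj_pow] at h1
        have h3 : cov n m (pp n m j) = sb _ (Fin.last n) * la n ^ (j : ℕ) *
          (sb _ (Fin.last n))⁻¹ * (la n ^ (j : ℕ))⁻¹ := eq_mul_inv_of_mul_eq h1
        rw [h3]
        group
      rw [h2]
      group
    · rw [act_sb, fib_apply, Psi, Psi, map_mul, cov_sb, div_kap, mod_kap]
      group
  | hm v w hv hw =>
    intro p
    rw [map_mul, Equiv.Perm.mul_apply, hv, hw, mul_assoc]
  | hi v hv =>
    intro p
    have h1 := hv ((act n m v⁻¹) p)
    rw [← Equiv.Perm.mul_apply, ← map_mul, mul_inv_cancel, map_one, Equiv.Perm.one_apply] at h1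
    rw [h1]
    group

/-- the character: the last `a` is mapped to `1`, the other generators to `0` -/
def chr {Z : Type} [CommGroup Z] (z : Z) : GG n →* Z :=
  surfLift (fun i => Fin.lastCases z (fun _ => 1) i) (fun _ => 1) (by
    have : (fun i : Fin (n + 1) => (Fin.lastCases z (fun _ => 1) i : Z) * 1 *
      (Fin.lastCases z (fun _ => 1) i : Z)⁻¹ * 1⁻¹) = fun _ => 1 := by
      funext i
      simp
    rw [this, List.ofFn_const, List.prod_replicate, one_pow])

theorem chr_la {Z : Type} [CommGroup Z] (z : Z) : chr n z (la n) = z := by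
  rw [chr, la, surfLift_sa, Fin.lastCases_last]

theorem chr_sb {Z : Type} [CommGroup Z] (z : Z) (i : Fin (n + 1)) : chr n z (sb _ i) = 1 := by
  rw [chr, surfLift_sb]

theorem chr_sa {Z : Type} [CommGroup Z] (z : Z) (i : Fin n) : chr n z (sa _ i.castSucc) = 1 := by
  rw [chr, surfLift_sa, Fin.lastCases_castSucc]

theorem chr_cov {Z : Type} [CommGroup Z] (z : Z) (hz : z ^ (m + 1) = 1) (w : SS n m) :
    chr n z (cov n m w) = 1 := by
  have h : (chr n z).comp (cov n m) = 1 := by
    refine surf_ext (fun i => ?_) (fun i => ?_)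
    · refine Fin.lastCases ?_ (fun k => ?_) i
      · have h0 : cov n m (sa _ (Fin.last _)) = la n ^ (m + 1) := cov_tt n m
        rw [MonoidHom.comp_apply, h0, map_pow, chr_la, hz]
        rfl
      · rw [MonoidHom.comp_apply, cov_sa, map_mul, map_mul, map_inv, chr_sa, mul_one,
          mul_inv_cancel]
        rfl
    · refine Fin.lastCases ?_ (fun k => ?_) i
      · have h0 : cov n m (sb _ (Fin.last _)) = sb _ (Fin.last n) := cov_bb n m
        rw [MonoidHom.comp_apply, h0, chr_sb]
        rfl
      · rw [MonoidHom.comp_apply, cov_sb, map_mul, map_mul, map_inv, chr_sb, mul_one,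
          mul_inv_cancel]
        rfl
  exact DFunLike.congr_fun h w

/-- **the cyclic cover**: the kernel of the character is the surface group of genus `(m + 1) n + 1` -/
theorem range_cov {Z : Type} [CommGroup Z] (z : Z) (hz : orderOf z = m + 1) :
    (cov n m).range = (chr n z).ker := by
  apply le_antisymm
  · rintro _ ⟨w, rfl⟩
    exact chr_cov n m z (by rw [← hz, pow_orderOf_eq_one]) w
  · intro w hw
    rw [MonoidHom.mem_ker] at hw
    obtain ⟨⟨j, y⟩, hp⟩ : ∃ p, p = act n m w (0, 1) := ⟨_, rfl⟩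
    have h1 := Psi_act n m w (0, 1)
    rw [← hp] at h1
    simp only [Psi, Fin.val_zero, pow_zero, inv_one, map_one, mul_one] at h1
    have h2 := congrArg (chr n z) h1
    rw [map_mul, map_inv, map_pow, chr_la, chr_cov n m z (by rw [← hz, pow_orderOf_eq_one]), hw,
      mul_one, inv_eq_one] at h2
    have h3 : (j : ℕ) = 0 := by
      have h4 := orderOf_dvd_of_pow_eq_one h2
      rw [hz] at h4
      exact Nat.eq_zero_of_dvd_of_lt h4 j.2
    rw [h3, pow_zero, inv_one, one_mul] at h1
    exact ⟨y, h1⟩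

end Pool.Agent.SuCov
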