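import Pool.Agent.Lib.MP_305fdd_al.Su.Cov.Cyc

/-!
# MP_305fdd_al, surface groups, covers: the action of the automorphisms on the characters

`Eqv v w`: the characters of `SurfaceGroup g` with values in `ℤ/p` given by `v` and `w` differ by an
automorphism.  Every nontrivial character is equivalent to one which is supported on the last `a`.
-/

set_option autoImplicit false

namespace Pool.Agent.SuCov

open Pool.Agent.Su

section auto

variable {g : ℕ}

/-- an automorphism from the images of the generators -/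
def mkE (a b a' b' : Fin g → SurfaceGroup g)
    (h : (List.ofFn fun i : Fin g => a i * b i * (a i)⁻¹ * (b i)⁻¹).prod = 1)
    (h' : (List.ofFn fun i : Fin g => a' i * b' i * (a' i)⁻¹ * (b' i)⁻¹).prod = 1)
    (h1 : ∀ i, surfLift a' b' h' (a i) = sa g i) (h2 : ∀ i, surfLift a' b' h' (b i) = sb g i)
    (h3 : ∀ i, surfLift a b h (a' i) = sa g i) (h4 : ∀ i, surfLift a b h (b' i) = sb g i) :
    SurfaceGroup g ≃* SurfaceGroup g :=
  MonoidHom.toMulEquiv (surfLift a b h) (surfLift a' b' h')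
    (surf_ext (fun i => by rw [MonoidHom.comp_apply, surfLift_sa, h1]; rfl)
      (fun i => by rw [MonoidHom.comp_apply, surfLift_sb, h2]; rfl))
    (surf_ext (fun i => by rw [MonoidHom.comp_apply, surfLift_sa, h3]; rfl)
      (fun i => by rw [MonoidHom.comp_apply, surfLift_sb, h4]; rfl))

theorem rel_comm {Q : Type} [CommGroup Q] (a b : Fin g → Q) :
    (List.ofFn fun i : Fin g => a i * b i * (a i)⁻¹ * (b i)⁻¹).prod = 1 := by
  have : (fun i : Fin g => a i * b i * (a i)⁻¹ * (b i)⁻¹) = fun _ => 1 := by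
    funext i
    rw [mul_comm (a i) (b i), mul_inv_cancel_right, mul_inv_cancel]
  rw [this, List.ofFn_const, List.prod_replicate, one_pow]

end auto

variable {p : ℕ}

/-- the character with the values `v` -/
def ch {g : ℕ} (v : Fin g → ZMod p × ZMod p) : SurfaceGroup g →* Multiplicative (ZMod p) :=
  surfLift (fun i => Multiplicative.ofAdd (v i).1) (fun i => Multiplicative.ofAdd (v i).2)
    (rel_comm _ _)

theorem ch_sa {g : ℕ} (v : Fin g → ZMod p × ZMod p) (i : Fin g) :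
    ch v (sa g i) = Multiplicative.ofAdd (v i).1 := surfLift_sa _ _ _ i

theorem ch_sb {g : ℕ} (v : Fin g → ZMod p × ZMod p) (i : Fin g) :
    ch v (sb g i) = Multiplicative.ofAdd (v i).2 := surfLift_sb _ _ _ i

/-- equivalence of characters -/
def Eqv {g : ℕ} (v w : Fin g → ZMod p × ZMod p) : Prop :=
  ∃ e : SurfaceGroup g ≃* SurfaceGroup g, (ch v).comp e.toMonoidHom = ch w

theorem Eqv.refl {g : ℕ} (v : Fin g → ZMod p × ZMod p) : Eqv v v :=
  ⟨MulEquiv.refl _, by ext; rfl⟩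

theorem Eqv.trans {g : ℕ} {u v w : Fin g → ZMod p × ZMod p} (h : Eqv u v) (h' : Eqv v w) :
    Eqv u w := by
  obtain ⟨e, he⟩ := h
  obtain ⟨e', he'⟩ := h'
  refine ⟨e'.trans e, ?_⟩
  rw [← he', ← he]
  ext
  rfl

theorem eqv_of {g : ℕ} {v w : Fin g → ZMod p × ZMod p} (e : SurfaceGroup g ≃* SurfaceGroup g)
    (ha : ∀ i, ch v (e (sa g i)) = Multiplicative.ofAdd (w i).1)
    (hb : ∀ i, ch v (e (sb g i)) = Multiplicative.ofAdd (w i).2) : Eqv v w := by
  refine ⟨e, surf_ext (fun i => ?_) (fun i => ?_)⟩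
  · rw [ch_sa]
    exact ha i
  · rw [ch_sb]
    exact hb i

/-- the twist `a_i ↦ a_i b_i` -/
theorem eqv_m1 {g : ℕ} (v : Fin g → ZMod p × ZMod p) (i : Fin g) :
    Eqv v (Function.update v i ((v i).1 + (v i).2, (v i).2)) := by
  have hr : ∀ s : SurfaceGroup g → SurfaceGroup g, (s = id ∨ s = (·⁻¹)) →
      (List.ofFn fun j : Fin g => (sa g j * (if j = i then s (sb g j) else 1)) * sb g j *
        (sa g j * (if j = i then s (sb g j) else 1))⁻¹ * (sb g j)⁻¹).prod = 1 := by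
    intro s hs
    refine Eq.trans ?_ (surf_rel g)
    congr 2
    funext j
    split_ifs
    · rcases hs with rfl | rfl
      · simp only [id]
        group
      · group
    · rw [mul_one]
  have h1 := hr id (Or.inl rfl)
  have h2 := hr (·⁻¹) (Or.inr rfl)
  simp only [id] at h1
  refine eqv_of (mkE _ _ _ _ h1 h2 ?_ ?_ ?_ ?_) ?_ ?_
  · intro j
    rw [map_mul, surfLift_sa]
    split_ifs
    · rw [surfLift_sb]
      group
    · rw [map_one, mul_one, mul_one]
  · intro j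
    rw [surfLift_sb]
  · intro j
    rw [map_mul, surfLift_sa]
    split_ifs
    · rw [map_inv, surfLift_sb]
      group
    · rw [map_one, mul_one, mul_one]
  · intro j
    rw [surfLift_sb]
  · intro j
    have : ch v (sa g j * (if j = i then sb g j else 1)) = _ := map_mul _ _ _
    change ch v (surfLift _ _ h1 (sa g j)) = _
    rw [surfLift_sa, map_mul, ch_sa]
    by_cases hj : j = i
    · subst hj
      rw [if_pos rfl, ch_sb, Function.update_self]
      rfl
    · rw [if_neg hj, map_one, mul_one, Function.update_of_ne hj]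
  · intro j
    change ch v (surfLift _ _ h1 (sb g j)) = _
    rw [surfLift_sb, ch_sb]
    by_cases hj : j = i
    · subst hj
      rw [Function.update_self]
    · rw [Function.update_of_ne hj]

/-- the twist `b_i ↦ b_i a_i` -/
theorem eqv_m2 {g : ℕ} (v : Fin g → ZMod p × ZMod p) (i : Fin g) :
    Eqv v (Function.update v i ((v i).1, (v i).2 + (v i).1)) := by
  have hr : ∀ s : SurfaceGroup g → SurfaceGroup g, (s = id ∨ s = (·⁻¹)) →
      (List.ofFn fun j : Fin g => sa g j * (sb g j * (if j = i then s (sa g j) else 1)) *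
        (sa g j)⁻¹ * (sb g j * (if j = i then s (sa g j) else 1))⁻¹).prod = 1 := by
    intro s hs
    refine Eq.trans ?_ (surf_rel g)
    congr 2
    funext j
    split_ifs
    · rcases hs with rfl | rfl
      · simp only [id]
        group
      · group
    · rw [mul_one]
  have h1 := hr id (Or.inl rfl)
  have h2 := hr (·⁻¹) (Or.inr rfl)
  simp only [id] at h1
  refine eqv_of (mkE _ _ _ _ h1 h2 ?_ ?_ ?_ ?_) ?_ ?_
  · intro j
    rw [surfLift_sa]
  · intro j
    rw [map_mul, surfLift_sb]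
    split_ifs
    · rw [surfLift_sa]
      group
    · rw [map_one, mul_one, mul_one]
  · intro j
    rw [surfLift_sa]
  · intro j
    rw [map_mul, surfLift_sb]
    split_ifs
    · rw [map_inv, surfLift_sa]
      group
    · rw [map_one, mul_one, mul_one]
  · intro j
    change ch v (surfLift _ _ h1 (sa g j)) = _
    rw [surfLift_sa, ch_sa]
    by_cases hj : j = i
    · subst hj
      rw [Function.update_self]
    · rw [Function.update_of_ne hj]
  · intro j
    change ch v (surfLift _ _ h1 (sb g j)) = _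
    rw [surfLift_sb, map_mul, ch_sb]
    by_cases hj : j = i
    · subst hj
      rw [if_pos rfl, ch_sa, Function.update_self]
      rfl
    · rw [if_neg hj, map_one, mul_one, Function.update_of_ne hj]

/-- rotation -/
theorem eqv_rot {n : ℕ} (v : Fin (n + 1) → ZMod p × ZMod p) : Eqv v (fun i => v (i + 1)) := by
  have h0 := surf_rel (n + 1)
  have h1 : (List.ofFn fun i : Fin (n + 1) => sa (n + 1) (i + 1) * sb _ (i + 1) *
      (sa _ (i + 1))⁻¹ * (sb _ (i + 1))⁻¹).prod = 1 := by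
    rw [List.ofFn_succ, List.prod_cons, mul_eq_one_iff_eq_inv'] at h0
    rw [List.ofFn_succ', List.concat_eq_append, List.prod_append, List.prod_singleton,
      Fin.last_add_one]
    simp only [Fin.coeSucc_eq_succ]
    rw [h0]
    group
  have h2 : (List.ofFn fun i : Fin (n + 1) => sa (n + 1) (i - 1) * sb _ (i - 1) *
      (sa _ (i - 1))⁻¹ * (sb _ (i - 1))⁻¹).prod = 1 := by
    rw [List.ofFn_succ', List.concat_eq_append, List.prod_append, List.prod_singleton,
      mul_eq_one_iff_eq_inv'] at h0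
    rw [List.ofFn_succ, List.prod_cons]
    have e0 : (0 : Fin (n + 1)) - 1 = Fin.last n := by
      rw [sub_eq_iff_eq_add, Fin.last_add_one]
    have e1 : ∀ i : Fin n, i.succ - 1 = i.castSucc := by
      intro i
      rw [sub_eq_iff_eq_add, Fin.coeSucc_eq_succ]
    simp only [e0, e1]
    rw [h0]
    group
  refine eqv_of (mkE (fun i => sa (n + 1) (i + 1)) (fun i => sb _ (i + 1))
    (fun i => sa (n + 1) (i - 1)) (fun i => sb _ (i - 1)) h1 h2 ?_ ?_ ?_ ?_) ?_ ?_
  · intro i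
    rw [surfLift_sa, add_sub_cancel_right]
  · intro i
    rw [surfLift_sb, add_sub_cancel_right]
  · intro i
    rw [surfLift_sa, sub_add_cancel]
  · intro i
    rw [surfLift_sb, sub_add_cancel]
  · intro i
    change ch v (surfLift _ _ h1 (sa _ i)) = _
    rw [surfLift_sa, ch_sa]
  · intro i
    change ch v (surfLift _ _ h1 (sb _ i)) = _
    rw [surfLift_sb, ch_sb]

/-- images of the generators `a` under the twist of two handles -/
def A3 {n : ℕ} (w : SurfaceGroup (n + 2)) : Fin (n + 2) → SurfaceGroup (n + 2) :=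
  Fin.cons (sa _ 0 * w⁻¹) (Fin.cons (w * sa _ 1) (fun j => sa _ j.succ.succ))

/-- images of the generators `b` under the twist of two handles -/
def B3 {n : ℕ} (w : SurfaceGroup (n + 2)) : Fin (n + 2) → SurfaceGroup (n + 2) :=
  Fin.cons (w * sb _ 0 * w⁻¹) (fun j => sb _ j.succ)

theorem A3_0 {n : ℕ} (w : SurfaceGroup (n + 2)) : A3 w 0 = sa _ 0 * w⁻¹ := rfl
theorem A3_1 {n : ℕ} (w : SurfaceGroup (n + 2)) : A3 w 1 = w * sa _ 1 := rfl
theorem A3_s {n : ℕ} (w : SurfaceGroup (n + 2)) (i : Fin n) : A3 w i.succ.succ = sa _ i.succ.succ := rfl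
theorem B3_0 {n : ℕ} (w : SurfaceGroup (n + 2)) : B3 w 0 = w * sb _ 0 * w⁻¹ := rfl
theorem B3_1 {n : ℕ} (w : SurfaceGroup (n + 2)) : B3 w 1 = sb _ 1 := rfl
theorem B3_s {n : ℕ} (w : SurfaceGroup (n + 2)) (i : Fin n) : B3 w i.succ.succ = sb _ i.succ.succ := rfl

/-- the curve -/
def u3 (n : ℕ) : SurfaceGroup (n + 2) := (sb _ 0)⁻¹ * sa _ 1 * sb _ 1 * (sa _ 1)⁻¹

theorem rel3 {n : ℕ} (w : SurfaceGroup (n + 2)) (hwu : w * u3 n = u3 n * w) :
    (List.ofFn fun i : Fin (n + 2) => A3 w i * B3 w i * (A3 w i)⁻¹ * (B3 w i)⁻¹).prod = 1 := by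
  have h0 := surf_rel (n + 2)
  have hs1 : (Fin.succ 0 : Fin (n + 2)) = 1 := rfl
  rw [List.ofFn_succ, List.ofFn_succ, List.prod_cons, List.prod_cons] at h0 ⊢
  simp only [A3_s, B3_s]
  rw [hs1] at h0 ⊢
  rw [A3_0, B3_0, A3_1, B3_1]
  have key : sa (n + 2) 0 * w⁻¹ * (w * sb _ 0 * w⁻¹) * (sa _ 0 * w⁻¹)⁻¹ *
      (w * sb _ 0 * w⁻¹)⁻¹ * (w * sa _ 1 * sb _ 1 * (w * sa _ 1)⁻¹ * (sb _ 1)⁻¹) =
      sa _ 0 * sb _ 0 * (sa _ 0)⁻¹ * (sb _ 0)⁻¹ * (sa _ 1 * sb _ 1 * (sa _ 1)⁻¹ * (sb _ 1)⁻¹) := by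
    have e1 : sa (n + 2) 0 * w⁻¹ * (w * sb _ 0 * w⁻¹) * (sa _ 0 * w⁻¹)⁻¹ *
      (w * sb _ 0 * w⁻¹)⁻¹ * (w * sa _ 1 * sb _ 1 * (w * sa _ 1)⁻¹ * (sb _ 1)⁻¹) =
        sa _ 0 * sb _ 0 * (sa _ 0)⁻¹ * (w * u3 n * w⁻¹) * (sb _ 1)⁻¹ := by
      rw [u3]
      group
    rw [e1, hwu, mul_inv_cancel_right, u3]
    group
  rw [← mul_assoc, key, mul_assoc]
  exact h0

theorem fix3 {n : ℕ} (w : SurfaceGroup (n + 2)) (hwu : w * u3 n = u3 n * w) :
    surfLift (A3 w) (B3 w) (rel3 w hwu) (u3 n) = u3 n := by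
  have e1 : surfLift (A3 w) (B3 w) (rel3 w hwu) (u3 n) = w * u3 n * w⁻¹ := by
    rw [u3, map_mul, map_mul, map_mul, map_inv, map_inv, surfLift_sa, surfLift_sb, surfLift_sb,
      A3_1, B3_0, B3_1]
    group
  rw [e1, hwu, mul_inv_cancel_right]

theorem inv3 {n : ℕ} (w : SurfaceGroup (n + 2)) (hwu : w * u3 n = u3 n * w)
    (hw : surfLift (A3 w) (B3 w) (rel3 w hwu) w = w) (i : Fin (n + 2)) :
    surfLift (A3 w) (B3 w) (rel3 w hwu) (A3 w⁻¹ i) = sa _ i ∧
      surfLift (A3 w) (B3 w) (rel3 w hwu) (B3 w⁻¹ i) = sb _ i := by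
  refine Fin.cases ?_ (fun i => ?_) i
  · rw [A3_0, B3_0, map_mul, map_mul, map_mul, map_inv, map_inv, hw, surfLift_sa, surfLift_sb,
      A3_0, B3_0]
    constructor <;> group
  · refine Fin.cases ?_ (fun i => ?_) i
    · change surfLift (A3 w) (B3 w) (rel3 w hwu) (A3 w⁻¹ 1) = sa _ 1 ∧
        surfLift (A3 w) (B3 w) (rel3 w hwu) (B3 w⁻¹ 1) = sb _ 1
      rw [A3_1, B3_1, map_mul, map_inv, hw, surfLift_sa, surfLift_sb, A3_1, B3_1]
      exact ⟨inv_mul_cancel_left _ _, rfl⟩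
    · rw [A3_s, B3_s, surfLift_sa, surfLift_sb]
      exact ⟨rfl, rfl⟩

/-- the twist along a curve which meets the handles `0` and `1` -/
theorem eqv_m3 {n : ℕ} (v : Fin (n + 2) → ZMod p × ZMod p) : Eqv v
    (Fin.cons ((v 0).1 - ((v 1).2 - (v 0).2), (v 0).2)
      (Fin.cons ((v 1).1 + ((v 1).2 - (v 0).2), (v 1).2) (fun i => v i.succ.succ))) := by
  have c1 : u3 n * u3 n = u3 n * u3 n := rfl
  have c2 : (u3 n)⁻¹ * u3 n = u3 n * (u3 n)⁻¹ := by group
  have f1 := fix3 (u3 n) c1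
  have f2 : surfLift (A3 (u3 n)⁻¹) (B3 (u3 n)⁻¹) (rel3 (u3 n)⁻¹ c2) (u3 n)⁻¹ = (u3 n)⁻¹ := by
    rw [map_inv, fix3 _ c2]
  have i1 := inv3 (u3 n) c1 f1
  have i2 := inv3 (u3 n)⁻¹ c2 f2
  rw [inv_inv] at i2
  refine eqv_of (mkE (A3 (u3 n)) (B3 (u3 n)) (A3 (u3 n)⁻¹) (B3 (u3 n)⁻¹) (rel3 _ c1) (rel3 _ c2)
    (fun i => (i2 i).1) (fun i => (i2 i).2) (fun i => (i1 i).1) (fun i => (i1 i).2)) ?_ ?_
  · have hcu : ch v (u3 n) = Multiplicative.ofAdd ((v 1).2 - (v 0).2) := by
      rw [u3, map_mul, map_mul, map_mul, map_inv, map_inv, ch_sa, ch_sb, ch_sb]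
      rw [← ofAdd_neg, ← ofAdd_neg, ← ofAdd_add, ← ofAdd_add, ← ofAdd_add]
      congr 1
      ring
    intro i
    change ch v (surfLift _ _ (rel3 _ c1) (sa _ i)) = _
    rw [surfLift_sa]
    refine Fin.cases ?_ (fun i => ?_) i
    · rw [A3_0, map_mul, map_inv, hcu, ch_sa, ← ofAdd_neg, ← ofAdd_add, ← sub_eq_add_neg]
      rfl
    · refine Fin.cases ?_ (fun i => ?_) i
      · change ch v (A3 _ 1) = _
        rw [A3_1, map_mul, hcu, ch_sa, ← ofAdd_add, add_comm]
        rfl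
      · rw [A3_s, ch_sa]
        rfl
  · intro i
    change ch v (surfLift _ _ (rel3 _ c1) (sb _ i)) = _
    rw [surfLift_sb]
    refine Fin.cases ?_ (fun i => ?_) i
    · rw [B3_0, map_mul, map_mul, map_inv, ch_sb, mul_comm, inv_mul_cancel_left]
      rfl
    · refine Fin.cases ?_ (fun i => ?_) i
      · change ch v (B3 _ 1) = _
        rw [B3_1, ch_sb]
        rfl
      · rw [B3_s, ch_sb]
        rfl

end Pool.Agent.SuCov
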